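import Mathlib

/-!
Oriented forcing number, maximum oriented forcing number and matching number.
-/

namespace Pool.Agent.Lib.MP_610dff_co_h41

/-- An orientation of a simple graph: every edge receives exactly one of its two directions. -/
structure Orientation {V : Type*} (G : SimpleGraph V) where
  /-- `arc u v` means that `(u, v)` is an arc, i.e. `v` is an out-neighbour of `u`. -/
  arc : V → V → Prop
  adj_iff : ∀ u v, G.Adj u v ↔ (arc u v ∨ arc v u)
  asymm : ∀ u v, arc u v → ¬ arc v u

/-- One (simultaneous) application of the colour change rule to the coloured set `S`. -/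
def step {V : Type*} {G : SimpleGraph V} (D : Orientation G) (S : Set V) : Set V :=
  S ∪ {v | v ∉ S ∧ ∃ u ∈ S, D.arc u v ∧ ∀ w, D.arc u w → w ∉ S → w = v}

/-- `S` is a forcing set of `D`: it is nonempty and the colour change rule finally colours
every vertex. -/
def IsForcing {V : Type*} {G : SimpleGraph V} (D : Orientation G) (S : Set V) : Prop :=
  S.Nonempty ∧ ∃ k : ℕ, (step D)^[k] S = Set.univ

/-- The oriented forcing number `F(D)`. -/
noncomputable def forcingNumber {V : Type*} {G : SimpleGraph V} (D : Orientation G) : ℕ :=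
  sInf {k | ∃ S : Set V, IsForcing D S ∧ S.ncard = k}

/-- `MOF(G)`, the maximum of `F(D)` over all orientations `D` of `G`. -/
noncomputable def MOF {V : Type*} (G : SimpleGraph V) : ℕ :=
  sSup {k | ∃ D : Orientation G, forcingNumber D = k}

/-- The matching number `μ(G)`. -/
noncomputable def matchingNumber {V : Type*} (G : SimpleGraph V) : ℕ :=
  sSup {k | ∃ M : Finset (Sym2 V), (∀ e ∈ M, e ∈ G.edgeSet) ∧
    (∀ e ∈ M, ∀ f ∈ M, e ≠ f → ∀ v, v ∈ e → v ∉ f) ∧ M.card = k}

/-! ### Basic facts -/

theorem subset_step {V : Type*} {G : SimpleGraph V} (D : Orientation G) (S : Set V) :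
    S ⊆ step D S := Set.subset_union_left

theorem step_mono {V : Type*} {G : SimpleGraph V} (D : Orientation G) {S T : Set V}
    (h : S ⊆ T) : step D S ⊆ step D T := by
  rintro v (hv | ⟨hv, u, hu, huv, hw⟩)
  · exact Or.inl (h hv)
  · by_cases hvT : v ∈ T
    · exact Or.inl hvT
    · exact Or.inr ⟨hvT, u, h hu, huv, fun w hw1 hw2 => hw w hw1 (fun h' => hw2 (h h'))⟩

theorem iterate_mono {V : Type*} {G : SimpleGraph V} (D : Orientation G) (k : ℕ) {S T : Set V}
    (h : S ⊆ T) : (step D)^[k] S ⊆ (step D)^[k] T := by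
  induction k generalizing S T with
  | zero => exact h
  | succ k ih => exact ih (step_mono D h)

theorem forcingNumber_le {V : Type*} {G : SimpleGraph V} (D : Orientation G) {S : Set V}
    (h : IsForcing D S) : forcingNumber D ≤ S.ncard :=
  Nat.sInf_le ⟨S, h, rfl⟩

theorem two_mul_matchingNumber_le {V : Type*} [Fintype V] (G : SimpleGraph V) :
    2 * matchingNumber G ≤ Fintype.card V := by
  classical
  have key : ∀ k ∈ {k | ∃ M : Finset (Sym2 V), (∀ e ∈ M, e ∈ G.edgeSet) ∧
      (∀ e ∈ M, ∀ f ∈ M, e ≠ f → ∀ v, v ∈ e → v ∉ f) ∧ M.card = k},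
      k ≤ Fintype.card V / 2 := by
    rintro k ⟨M, hM, hdis, rfl⟩
    have h1 : (M.biUnion (fun e => e.toFinset)).card = ∑ e ∈ M, e.toFinset.card := by
      apply Finset.card_biUnion
      intro e he f hf hef
      show Disjoint e.toFinset f.toFinset
      rw [Finset.disjoint_left]
      intro v hv hv'
      exact hdis e he f hf hef v (Sym2.mem_toFinset.1 hv) (Sym2.mem_toFinset.1 hv')
    have h2 : ∑ e ∈ M, e.toFinset.card = ∑ e ∈ M, 2 := by
      apply Finset.sum_congr rfl
      intro e he
      exact Sym2.card_toFinset_of_not_isDiag e (G.not_isDiag_of_mem_edgeSet (hM e he))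
    have h3 : (M.biUnion (fun e => e.toFinset)).card ≤ Fintype.card V := Finset.card_le_univ _
    rw [h1, h2, Finset.sum_const, smul_eq_mul] at h3
    omega
  have := csSup_le' (a := Fintype.card V / 2) (s := {k | ∃ M : Finset (Sym2 V),
      (∀ e ∈ M, e ∈ G.edgeSet) ∧
      (∀ e ∈ M, ∀ f ∈ M, e ≠ f → ∀ v, v ∈ e → v ∉ f) ∧ M.card = k}) key
  have h : matchingNumber G ≤ Fintype.card V / 2 := this
  omega

end Pool.Agent.Lib.MP_610dff_co_h41
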