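import Pool.Agent.Lib.MP_610dff_co_h41.Basic

/-!
The 15-vertex graph and the certificate checker.
The graph: replace every vertex of `K_4` (nodes `A, B, C, D`) by a triangle, and subdivide once
each of the three edges between the triangles `A`, `B`, `C`.
-/

namespace Pool.Agent.Lib.MP_610dff_co_h41

/-- Adjacency matrix of the graph, bit `15 * u + v` for the pair `(u, v)`. -/
def NB : ℕ := 0x10804800090e00288060208c04281060020c20282060080e0029006

/-- The 15-vertex, 21-edge graph. -/
def G15 : SimpleGraph (Fin 15) where
  Adj u v := NB.testBit (15 * u.1 + v.1) = true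
  symm := ⟨by decide⟩
  loopless := ⟨by decide⟩

/-- row `u` of a bit matrix -/
def row (M u : ℕ) : ℕ := Nat.shiftRight M (15 * u)

/-- check `k` consecutive forces, starting from the coloured set `C` -/
def forces (A B : ℕ) : ℕ → ℕ → ℕ → Bool
  | 0, C, _ => Nat.beq C 32767
  | k + 1, C, code =>
      Nat.blt (Nat.mod code 16) 15 &&
      Nat.blt (Nat.mod (Nat.div code 16) 16) 15 &&
      Nat.testBit C (Nat.mod code 16) &&
      Nat.testBit (Nat.land (row NB (Nat.mod code 16)) (Nat.xor 32767 C))
        (Nat.mod (Nat.div code 16) 16) &&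
      Nat.testBit (row A (Nat.mod code 16)) (Nat.mod (Nat.div code 16) 16) &&
      Nat.beq (Nat.land (Nat.land (row NB (Nat.mod code 16)) (Nat.xor 32767 C))
          (Nat.lor (row B (Nat.mod code 16)) (Nat.shiftLeft 1 (Nat.mod (Nat.div code 16) 16))))
        (Nat.land (row NB (Nat.mod code 16)) (Nat.xor 32767 C)) &&
      forces A B k (Nat.lor C (Nat.shiftLeft 1 (Nat.mod (Nat.div code 16) 16)))
        (Nat.div code 256)

/-- the checker for decision trees; returns the unread part of the code -/
def run : ℕ → ℕ → ℕ → ℕ → Option ℕ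
  | 0, _, _, _ => none
  | f + 1, A, B, code =>
    if Nat.beq (Nat.mod code 2) 1 = true then
      if forces A B 8 (Nat.mod (Nat.div code 2) 32768) (Nat.div (Nat.mod code (2 ^ 80)) 65536)
          = true then
        some (Nat.div code (2 ^ 80))
      else none
    else
      if Nat.testBit NB (15 * (Nat.mod (Nat.div code 2) 16) + Nat.mod (Nat.div code 32) 16) = true
          ∧ Nat.blt (Nat.mod (Nat.div code 2) 16) 15 = true
          ∧ Nat.blt (Nat.mod (Nat.div code 32) 16) 15 = true then
        match run f
            (Nat.lor A (Nat.shiftLeft 1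
              (15 * (Nat.mod (Nat.div code 2) 16) + Nat.mod (Nat.div code 32) 16)))
            (Nat.lor B (Nat.shiftLeft 1
              (15 * (Nat.mod (Nat.div code 32) 16) + Nat.mod (Nat.div code 2) 16)))
            (Nat.div code 512) with
        | some c =>
          run f
            (Nat.lor A (Nat.shiftLeft 1
              (15 * (Nat.mod (Nat.div code 32) 16) + Nat.mod (Nat.div code 2) 16)))
            (Nat.lor B (Nat.shiftLeft 1
              (15 * (Nat.mod (Nat.div code 2) 16) + Nat.mod (Nat.div code 32) 16)))
            c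
        | none => none
      else none

/-- the set coded by the bits of `C` -/
def toSet (C : ℕ) : Set (Fin 15) := {i | C.testBit i.1 = true}

/-- the known arcs `A` and (transposed) `B` are arcs of `D` -/
def Cons (D : Orientation G15) (A B : ℕ) : Prop :=
  ∀ u v : Fin 15, (A.testBit (15 * u.1 + v.1) = true → D.arc u v) ∧
    (B.testBit (15 * u.1 + v.1) = true → D.arc v u)

/-- there is a forcing set with 7 vertices -/
def Good (D : Orientation G15) : Prop := ∃ S : Set (Fin 15), IsForcing D S ∧ S.ncard = 7

theorem row_testBit (M u v : ℕ) : (row M u).testBit v = M.testBit (15 * u + v) := by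
  unfold row
  show (M >>> (15 * u)).testBit v = _
  rw [Nat.testBit_shiftRight]

theorem toSet_or (C v : ℕ) (hv : v < 15) :
    toSet (Nat.lor C (Nat.shiftLeft 1 v)) = insert ⟨v, hv⟩ (toSet C) := by
  ext i
  have e : (Nat.lor C (Nat.shiftLeft 1 v)).testBit i.1
      = (C.testBit i.1 || decide (v = i.1)) := by
    show (C ||| (1 <<< v)).testBit i.1 = _
    rw [Nat.testBit_or, Nat.one_shiftLeft, Nat.testBit_two_pow]
  show (Nat.lor C (Nat.shiftLeft 1 v)).testBit i.1 = true ↔ i = ⟨v, hv⟩ ∨ C.testBit i.1 = true
  rw [e, Bool.or_eq_true, decide_eq_true_eq, Fin.ext_iff]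
  constructor
  · rintro (h | h)
    · exact Or.inr h
    · exact Or.inl h.symm
  · rintro (h | h)
    · exact Or.inr h.symm
    · exact Or.inl h

theorem forces_sound (D : Orientation G15) (A B : ℕ) (h : Cons D A B) :
    ∀ k C code, forces A B k C code = true →
      (∃ j, (step D)^[j] (toSet C) = Set.univ) ∧ (toSet C).ncard + k = 15 := by
  intro k
  induction k with
  | zero =>
    intro C code hc
    have hC : C = 32767 := by
      have : Nat.beq C 32767 = true := hc
      exact Nat.eq_of_beq_eq_true this
    have hu : toSet C = Set.univ := by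
      subst hC
      ext i
      show (32767 : ℕ).testBit i.1 = true ↔ i ∈ Set.univ
      simp only [Set.mem_univ, iff_true]
      revert i
      decide
    refine ⟨⟨0, hu⟩, ?_⟩
    rw [hu, Set.ncard_univ]
    simp
  | succ k ih =>
    intro C code hc
    unfold forces at hc
    simp only [Bool.and_eq_true] at hc
    obtain ⟨⟨⟨⟨⟨⟨h1, h1'⟩, h2⟩, h3⟩, h4⟩, h5⟩, h6⟩ := hc
    set u := Nat.mod code 16 with hu
    set v := Nat.mod (Nat.div code 16) 16 with hv
    obtain ⟨⟨j, hj⟩, hcard⟩ := ih _ _ h6
    have hu15 : u < 15 := by
      have : Nat.ble (u + 1) 15 = true := h1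
      exact Nat.le_of_ble_eq_true this
    have hv15 : v < 15 := by
      have : Nat.ble (v + 1) 15 = true := h1'
      exact Nat.le_of_ble_eq_true this
    have hX : ∀ w, (Nat.land (row NB u) (Nat.xor 32767 C)).testBit w
        = (NB.testBit (15 * u + w) && ((32767 : ℕ).testBit w ^^ C.testBit w)) := by
      intro w
      show (row NB u &&& (32767 ^^^ C)).testBit w = _
      rw [Nat.testBit_and, Nat.testBit_xor, row_testBit]
    have h32 : ∀ w : Fin 15, (32767 : ℕ).testBit w.1 = true := by decide
    have hCv : C.testBit v = false := by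
      rw [hX, Bool.and_eq_true, h32 ⟨v, hv15⟩] at h3
      simpa using h3.2
    have harc : D.arc ⟨u, hu15⟩ ⟨v, hv15⟩ := by
      rw [row_testBit] at h4
      exact (h ⟨u, hu15⟩ ⟨v, hv15⟩).1 h4
    have h5' := Nat.eq_of_beq_eq_true h5
    have hsub : insert (⟨v, hv15⟩ : Fin 15) (toSet C) ⊆ step D (toSet C) := by
      intro x hx
      rcases hx with rfl | hx
      · refine Or.inr ⟨?_, ⟨u, hu15⟩, h2, harc, ?_⟩
        · show ¬ (C.testBit v = true)
          rw [hCv]; simp
        · intro w hw hwC
          have hadj : G15.Adj ⟨u, hu15⟩ w := (D.adj_iff _ _).2 (Or.inl hw)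
          have hNB : NB.testBit (15 * u + w.1) = true := hadj
          have hCw : C.testBit w.1 = false := by
            cases hh : C.testBit w.1 with
            | false => rfl
            | true => exact absurd hh hwC
          have hXw : (Nat.land (row NB u) (Nat.xor 32767 C)).testBit w.1 = true := by
            rw [hX, hNB, h32 w, hCw]; rfl
          rw [← h5'] at hXw
          have hXw2 : ((Nat.land (row NB u) (Nat.xor 32767 C)) &&&
              (row B u ||| (1 <<< v))).testBit w.1 = true := hXw
          rw [Nat.testBit_and, Nat.testBit_or, Bool.and_eq_true, Bool.or_eq_true,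
            row_testBit, Nat.one_shiftLeft, Nat.testBit_two_pow, decide_eq_true_eq] at hXw2
          rcases hXw2.2 with hb | hb
          · exact absurd ((h ⟨u, hu15⟩ w).2 hb) (D.asymm _ _ hw)
          · exact Fin.ext hb.symm
      · exact Or.inl hx
    refine ⟨⟨j + 1, ?_⟩, ?_⟩
    · apply Set.eq_univ_of_univ_subset
      rw [← hj, Function.iterate_succ_apply]
      apply iterate_mono
      rw [toSet_or C v hv15]
      exact hsub
    · rw [toSet_or C v hv15] at hcard
      have hnot : (⟨v, hv15⟩ : Fin 15) ∉ toSet C := by
        show ¬ (C.testBit v = true)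
        rw [hCv]; simp
      rw [Set.ncard_insert_of_notMem hnot (Set.toFinite _)] at hcard
      omega

theorem cons_or (D : Orientation G15) (A B : ℕ) (h : Cons D A B) (a b : Fin 15)
    (hab : D.arc a b) :
    Cons D (Nat.lor A (Nat.shiftLeft 1 (15 * a.1 + b.1)))
      (Nat.lor B (Nat.shiftLeft 1 (15 * b.1 + a.1))) := by
  have key : ∀ (M : ℕ) (x y p q : Fin 15),
      (Nat.lor M (Nat.shiftLeft 1 (15 * x.1 + y.1))).testBit (15 * p.1 + q.1) = true →
      M.testBit (15 * p.1 + q.1) = true ∨ (p = x ∧ q = y) := by
    intro M x y p q hh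
    have hh' : (M ||| (1 <<< (15 * x.1 + y.1))).testBit (15 * p.1 + q.1) = true := hh
    rw [Nat.testBit_or, Nat.one_shiftLeft, Nat.testBit_two_pow, Bool.or_eq_true,
      decide_eq_true_eq] at hh'
    rcases hh' with hh' | hh'
    · exact Or.inl hh'
    · right
      have := x.2; have := y.2; have := p.2; have := q.2
      constructor <;> apply Fin.ext <;> omega
  intro p q
  constructor
  · intro hp
    rcases key A a b p q hp with hp | ⟨rfl, rfl⟩
    · exact (h p q).1 hp
    · exact hab
  · intro hp
    rcases key B b a p q hp with hp | ⟨rfl, rfl⟩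
    · exact (h p q).2 hp
    · exact hab

theorem run_sound (D : Orientation G15) :
    ∀ f A B code r, run f A B code = some r → Cons D A B → Good D := by
  intro f
  induction f with
  | zero =>
    intro A B code r hr
    simp [run] at hr
  | succ f ih =>
    intro A B code r hr hc
    unfold run at hr
    split_ifs at hr with h1 h2 h3
    · -- leaf
      obtain ⟨⟨j, hj⟩, hcard⟩ := forces_sound D A B hc _ _ _ h2
      have hcard7 : (toSet (Nat.mod (Nat.div code 2) 32768)).ncard = 7 := by omega
      refine ⟨_, ⟨?_, j, hj⟩, hcard7⟩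
      rw [← Set.ncard_pos (Set.toFinite _)]
      omega
    · obtain ⟨hN, ha, hb⟩ := h3
      have ha15 : Nat.mod (Nat.div code 2) 16 < 15 := by
        have : Nat.ble (Nat.mod (Nat.div code 2) 16 + 1) 15 = true := ha
        exact Nat.le_of_ble_eq_true this
      have hb15 : Nat.mod (Nat.div code 32) 16 < 15 := by
        have : Nat.ble (Nat.mod (Nat.div code 32) 16 + 1) 15 = true := hb
        exact Nat.le_of_ble_eq_true this
      have hadj : G15.Adj ⟨_, ha15⟩ ⟨_, hb15⟩ := hN
      rcases (D.adj_iff _ _).1 hadj with hab | hba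
      · cases hrun : run f
            (Nat.lor A (Nat.shiftLeft 1
              (15 * (Nat.mod (Nat.div code 2) 16) + Nat.mod (Nat.div code 32) 16)))
            (Nat.lor B (Nat.shiftLeft 1
              (15 * (Nat.mod (Nat.div code 32) 16) + Nat.mod (Nat.div code 2) 16)))
            (Nat.div code 512) with
        | none => rw [hrun] at hr; simp at hr
        | some c => exact ih _ _ _ _ hrun (cons_or D A B hc _ _ hab)
      · cases hrun : run f
            (Nat.lor A (Nat.shiftLeft 1
              (15 * (Nat.mod (Nat.div code 2) 16) + Nat.mod (Nat.div code 32) 16)))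
            (Nat.lor B (Nat.shiftLeft 1
              (15 * (Nat.mod (Nat.div code 32) 16) + Nat.mod (Nat.div code 2) 16)))
            (Nat.div code 512) with
        | none => rw [hrun] at hr; simp at hr
        | some c =>
          rw [hrun] at hr
          exact ih _ _ _ _ hr (cons_or D A B hc _ _ hba)

end Pool.Agent.Lib.MP_610dff_co_h41
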